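import Mathlib
import Pool.Agent.H632R3.Shift

open Finset Filter Topology

namespace Pool.Agent.Results.MP_ee50b4_pr.DriftProfile

set_option linter.unusedSectionVars false

noncomputable section

section Defs

variable {n : ℕ} [NeZero n] (μ : ZMod n → ℝ)

/-- The `t`-step law `μ^{*t}` of the walk started at `0`. -/
def convPow : ℕ → ZMod n → ℝ
  | 0 => fun x => if x = 0 then 1 else 0
  | t + 1 => fun x => ∑ y, μ y * convPow t (x - y)

/-- Total variation distance of `μ^{*t}` to the uniform law. -/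
def tvd (t : ℕ) : ℝ := (1 / 2) * ∑ x, |convPow μ t x - 1 / (n : ℝ)|

/-- `T_mix(ε) = min {t : tvd μ t ≤ ε}`. -/
def Tmix (ε : ℝ) : ℕ := sInf {t : ℕ | tvd μ t ≤ ε}

/-- The eigenvalues `∑_x μ(x) e^{2πijx/n}`. -/
def muHat (j : ZMod n) : ℂ :=
  ∑ x : ZMod n, (μ x : ℂ) * Complex.exp (2 * Real.pi * Complex.I * j.val * x.val / n)

/-- The spectral gap `1 - max_{j ≠ 0} |μ̂(j)|`. -/
def gap : ℝ := 1 - ⨆ j : {j : ZMod n // j ≠ 0}, ‖muHat μ j.1‖

/-- The relaxation time. -/
def Trel : ℝ := 1 / gap μ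

/-- `μ` is a probability measure whose support is not contained in any coset of a proper
subgroup. -/
structure IsErgodic : Prop where
  nonneg : ∀ x, 0 ≤ μ x
  sum_one : ∑ x, μ x = 1
  not_coset : ∀ (H : AddSubgroup (ZMod n)) (a : ZMod n), (∀ x, μ x ≠ 0 → x - a ∈ H) → H = ⊤

end Defs

/-- `T_rel / T_mix(1/2) → 0`. -/
def PeresCondition (n : ℕ → ℕ) [∀ k, NeZero (n k)] (μ : ∀ k, ZMod (n k) → ℝ) : Prop :=
  Tendsto (fun k => Trel (μ k) / (Tmix (μ k) (1 / 2) : ℝ)) atTop (𝓝 0)

/-- Total variation cutoff. -/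
def HasCutoff (n : ℕ → ℕ) [∀ k, NeZero (n k)] (μ : ∀ k, ZMod (n k) → ℝ) : Prop :=
  ∀ ε : ℝ, 0 < ε → ε < 1 / 2 →
    Tendsto (fun k => (Tmix (μ k) ε : ℝ) / (Tmix (μ k) (1 - ε) : ℝ)) atTop (𝓝 1)

open Pool.Agent.H632R3.Conv

theorem convPow_eq {n : ℕ} [NeZero n] (μ : ZMod n → ℝ) (t : ℕ) : convPow μ t = cpow μ t := by
  induction t with
  | zero => rfl
  | succ t ih => funext x; simp only [convPow, cpow, conv, ih]

theorem tvd_eq {n : ℕ} [NeZero n] (μ : ZMod n → ℝ) (t : ℕ) : tvd μ t = tv (cpow μ t) := by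
  unfold tvd tv
  rw [convPow_eq, ZMod.card]

section

variable (a : ∀ k, ZMod (nn k))

/-- The walk with drift `a k`. -/
def nu (k : ℕ) (x : ZMod (nn k)) : ℝ := mu k (x - a k)

theorem tvd_nu (k t : ℕ) : tvd (nu a k) t = tv (cpow (mu k) t) := by
  rw [tvd_eq]
  exact tv_cpow_shift (mu k) (a k) t

theorem isErgodic (k : ℕ) : IsErgodic (nu a k) where
  nonneg x := (mu_pos k _).le
  sum_one := by
    exact (Equiv.sum_comp (Equiv.subRight (a k)) (mu k)).trans (mu_sum k)
  not_coset H b h := by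
    rw [AddSubgroup.eq_top_iff']
    intro x
    have := h (x + b) (mu_pos k _).ne'
    rwa [add_sub_cancel_right] at this

theorem gap_ge (k : ℕ) : 1 / (mm k : ℝ) ≤ gap (nu a k) := by
  have hn : 1 < nn k := by have := mm_le_nn k; have := mm_ge k; omega
  have : Nontrivial (ZMod (nn k)) := (ZMod.nontrivial_iff).mpr (by omega)
  have : Nonempty {j : ZMod (nn k) // j ≠ 0} := by
    obtain ⟨j, hj⟩ := exists_ne (0 : ZMod (nn k))
    exact ⟨⟨j, hj⟩⟩
  have h1 : (⨆ j : {j : ZMod (nn k) // j ≠ 0}, ‖muHat (nu a k) j.1‖) ≤ 1 - 1 / (mm k : ℝ) := by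
    refine ciSup_le fun j => ?_
    unfold muHat
    rw [← hat_shift_char]
    have h2 := norm_hat_shift (mu k) (a k) (AddChar.mulShift (ZMod.stdAddChar (N := nn k)) j.1)
    exact h2.le.trans (mu_hat k (mulShift_ne_zero j.2))
  unfold gap
  linarith

theorem Trel_pos (k : ℕ) : 0 < Trel (nu a k) := by
  have hm : (0 : ℝ) < mm k := by exact_mod_cast mm_pos k
  have h1 := gap_ge a k
  have : 0 < 1 / (mm k : ℝ) := by positivity
  exact div_pos one_pos (by linarith)

theorem Trel_le (k : ℕ) : Trel (nu a k) ≤ mm k := by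
  have hm : (0 : ℝ) < mm k := by exact_mod_cast mm_pos k
  have h1 := gap_ge a k
  have h2 : 0 < 1 / (mm k : ℝ) := by positivity
  unfold Trel
  rw [div_le_iff₀ (by linarith)]
  calc (1 : ℝ) = mm k * (1 / mm k) := by field_simp
    _ ≤ mm k * gap (nu a k) := mul_le_mul_of_nonneg_left (by linarith) hm.le

theorem profile (s : ℝ) (hs : 0 < s) :
    Tendsto (fun k => tvd (nu a k) ⌊s * TT k⌋₊) atTop (𝓝 (Real.exp (-s))) := by
  simp_rw [tvd_nu]
  exact mu_profile s hs.le

theorem anti (k : ℕ) : Antitone (tvd (nu a k)) := by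
  have h := tv_antitone (fun x => (mu_pos k x).le) (mu_sum k)
  intro s t hst
  rw [tvd_nu, tvd_nu]
  exact h hst

theorem tmix_lim (ε : ℝ) (h0 : 0 < ε) (h1 : ε < 1) :
    Tendsto (fun k => (Tmix (nu a k) ε : ℝ) / TT k) atTop (𝓝 (Real.log (1 / ε))) := by
  have hL : 0 < Real.log (1 / ε) := Real.log_pos (by rw [lt_div_iff₀ h0]; linarith)
  rw [tendsto_order]
  have key : ∀ s, Real.exp (-s) = Real.exp (Real.log (1 / ε) - s) * ε := by
    intro s
    rw [sub_eq_add_neg, Real.exp_add, Real.exp_log (by positivity)]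
    field_simp
  constructor
  · intro b hb
    obtain ⟨s, hs1, hs2⟩ := exists_between (max_lt hb hL)
    have hs0 : 0 < s := lt_of_le_of_lt (le_max_right _ _) hs1
    have hsa : b < s := lt_of_le_of_lt (le_max_left _ _) hs1
    have h3 : ε < Real.exp (-s) := by
      rw [key s]
      have : 1 < Real.exp (Real.log (1 / ε) - s) := Real.one_lt_exp_iff.mpr (by linarith)
      nlinarith
    filter_upwards [le_tmix (anti a) TT_lim (profile a) h0 hs0 h3, TT_lim.eventually_gt_atTop 0]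
      with k hk hT
    refine lt_of_lt_of_le hsa ?_
    rw [le_div_iff₀ hT]
    exact hk
  · intro b hb
    obtain ⟨s, hs1, hs2⟩ := exists_between hb
    have h3 : Real.exp (-s) < ε := by
      rw [key s]
      have : Real.exp (Real.log (1 / ε) - s) < 1 := Real.exp_lt_one_iff.mpr (by linarith)
      nlinarith
    filter_upwards [tmix_le TT_lim (profile a) (hL.trans hs1) h3, TT_lim.eventually_gt_atTop 0]
      with k hk hT
    refine lt_of_le_of_lt ?_ hs2
    rw [div_le_iff₀ hT]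
    exact hk

theorem peres : PeresCondition nn (nu a) := by
  unfold PeresCondition
  have e1 : (1 / 2 : ℝ) < Real.exp (-(1 / 2)) := by
    have := Real.add_one_lt_exp (x := (-(1 / 2) : ℝ)) (by norm_num)
    linarith
  have h1 := le_tmix (anti a) TT_lim (profile a) (by norm_num) (by norm_num : (0 : ℝ) < 1 / 2) e1
  have h2 : Tendsto (fun k : ℕ => 2 / ((k : ℝ) + 1)) atTop (𝓝 0) :=
    tendsto_const_nhds.div_atTop
      (tendsto_atTop_add_const_right _ 1 tendsto_natCast_atTop_atTop)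
  refine squeeze_zero' (Eventually.of_forall fun k =>
    div_nonneg (Trel_pos a k).le (Nat.cast_nonneg _)) ?_ h2
  filter_upwards [h1] with k hk
  have hm : (0 : ℝ) < mm k := by exact_mod_cast mm_pos k
  have h3 : (0 : ℝ) ≤ k := Nat.cast_nonneg k
  have hT : 0 < 1 / 2 * TT k := by have := TT_ge k; linarith
  have hTm : 0 < (Tmix (nu a k) (1 / 2) : ℝ) := lt_of_lt_of_le hT hk
  rw [div_le_div_iff₀ hTm (by linarith)]
  calc Trel (nu a k) * ((k : ℝ) + 1) ≤ mm k * ((k : ℝ) + 1) :=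
        mul_le_mul_of_nonneg_right (Trel_le a k) (by linarith)
    _ = 2 * (1 / 2 * TT k) := by unfold TT; ring
    _ ≤ 2 * (Tmix (nu a k) (1 / 2) : ℝ) := mul_le_mul_of_nonneg_left hk (by norm_num)

end

/-- There are symmetric measures `μ k` on cycles `ZMod (n k)`, `n k → ∞`, and times `T k` such
that for every choice of drifts `a k` the walks driven by `x ↦ μ k (x - a k)` are ergodic, satisfy
`T_rel / T_mix(1/2) → 0` and `T_rel / T k → 0`, have no cutoff, and have distance to uniformity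
tending to `exp(-s)` at time `⌊s T k⌋` for every `s > 0`. -/
theorem result :
    ∃ (n : ℕ → ℕ) (_ : ∀ k, NeZero (n k)) (μ : ∀ k, ZMod (n k) → ℝ) (T : ℕ → ℝ),
      (∀ k, 2 ≤ n k) ∧ Tendsto n atTop atTop ∧ Tendsto T atTop atTop ∧
      (∀ k x, μ k (-x) = μ k x) ∧
      ∀ a : ∀ k, ZMod (n k),
        (∀ k, IsErgodic (fun x => μ k (x - a k))) ∧
        PeresCondition n (fun k x => μ k (x - a k)) ∧
        ¬ HasCutoff n (fun k x => μ k (x - a k)) ∧
        Tendsto (fun k => Trel (fun x => μ k (x - a k)) / T k) atTop (𝓝 0) ∧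
        (∀ s : ℝ, 0 < s → Tendsto (fun k => tvd (fun x => μ k (x - a k)) ⌊s * T k⌋₊) atTop
          (𝓝 (Real.exp (-s)))) ∧
        (∀ ε : ℝ, 0 < ε → ε < 1 →
          Tendsto (fun k => (Tmix (fun x => μ k (x - a k)) ε : ℝ) / T k) atTop
            (𝓝 (Real.log (1 / ε)))) := by
  refine ⟨nn, inferInstance, mu, TT, fun k => ?_, ?_, TT_lim, mu_neg, fun a =>
    ⟨isErgodic a, peres a, no_cutoff (anti a) TT_lim (profile a), ?_, profile a, tmix_lim a⟩⟩
  · have := mm_le_nn k; have := mm_ge k; omega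
  · refine tendsto_atTop_mono (fun k => ?_) tendsto_id
    have := mm_le_nn k
    have := lt_mm k
    simp only [id]
    omega
  · have h2 : Tendsto (fun k : ℕ => 1 / ((k : ℝ) + 1)) atTop (𝓝 0) :=
      tendsto_const_nhds.div_atTop
        (tendsto_atTop_add_const_right _ 1 tendsto_natCast_atTop_atTop)
    refine squeeze_zero (fun k => div_nonneg (Trel_pos a k).le (by
      have := TT_ge k; linarith)) (fun k => ?_) h2
    have h3 : (0 : ℝ) ≤ k := Nat.cast_nonneg k
    have hT : 0 < TT k := by have := TT_ge k; linarith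
    rw [div_le_div_iff₀ hT (by linarith), one_mul]
    calc Trel (nu a k) * ((k : ℝ) + 1) ≤ mm k * ((k : ℝ) + 1) :=
          mul_le_mul_of_nonneg_right (Trel_le a k) (by linarith)
      _ = TT k := by unfold TT; ring

end

end Pool.Agent.Results.MP_ee50b4_pr.DriftProfile
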